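import Pool.Agent.Q105.SH.Tiles

/-!
# The Singer–Hopf inequality for manifolds tiled by Coxeter polytopes

`P` is the finite poset of the cells of a cell complex, ordered by inclusion, `dim` their dimension
and `numBelow dim c` the number of the vertices of the cell `c`.  `CellsAt dim v S N` says that `S` is
the link of the vertex `v`: the cells which contain `v`, ordered by inclusion, correspond to the faces
of the simplicial complex `S`, and the cell of the face `σ` has dimension `|σ|` and `N σ` vertices.

Examples: the quotients of the Davis complex of a Coxeter group `W` whose nerve is the flag sphere `S`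
by torsion free subgroups of finite index; the cell of `σ` is the Coxeter polytope of the finite group
`W_σ`, which has `N σ = |W_σ|` vertices.  More generally all the complexes of Coxeter polytopes with
flag spheres as links of vertices; they are nonpositively curved (Moussong), hence aspherical.
For weights `2` these are the cubical complexes.

The proof: the Euler characteristic is the sum over the vertices `v` of the weighted Charney–Davis
quantities of their links, which are nonnegative combinations of the Charney–Davis quantities of the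
links of the faces of even size.
-/

set_option autoImplicit false

namespace Pool.Agent.Results.MP_9d0d86_gt.CoxeterTiles

open Pool.Agent.W497.FS Pool.Agent.TH709.GG Pool.Agent.Q105.SH

/-- The flag spheres of dimension `2 m - 1` which are admitted: all join factors, of rank `e` say, have
`e ≤ 3` or at most `max (2 e + 6) (3 e)` vertices; or the sphere is in the class `Cls` (closed under
links, joins, gluing, edge subdivisions, inverse edge contractions); or the links of all faces of even
size are admissible. -/
def GoodLink (m : ℕ) {n : ℕ} (S : Finset (Finset (Fin n))) : Prop :=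
  (∀ C : Finset (Fin n), IsFactor S C → (∀ F ∈ S, F ⊆ C → F.card ≤ 3) ∨
      ∃ F ∈ S, F ⊆ C ∧ C.card ≤ max (2 * F.card + 6) (3 * F.card)) ∨
    Cls (2 * m) (Fin n) (skel S) (vert S) ∨
    ∀ F ∈ S, ∀ j, F.card + 2 * j = 2 * m → Adm j (link S F)

/-- `w e ≥ 2` are weights of the edges and the numbers `N σ` have the following properties, which hold
for the orders of the finite Coxeter groups `W_σ` given by the weights: multiplicativity for orthogonal
parts, and the sign of the sum of the `(-1/2)^|T \ U| / N U`, `U ⊆ T`, for the faces `T` with at least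
three vertices which are connected by edges of weight at least `3` (up to the factor `|W_T|`, it is the
Charney–Davis quantity of the Coxeter complex of `W_T`). -/
structure CoxeterOrders {n : ℕ} (S : Finset (Finset (Fin n))) (w : Finset (Fin n) → ℕ)
    (N : Finset (Fin n) → ℚ) : Prop where
  weight : ∀ e ∈ S, e.card = 2 → 2 ≤ w e
  empty : N ∅ = 1
  vertex : ∀ v, {v} ∈ S → N {v} = 2
  edge : ∀ e ∈ S, e.card = 2 → N e = 2 * w e
  mul : ∀ A B : Finset (Fin n), Disjoint A B → A ∪ B ∈ S →
    (∀ a ∈ A, ∀ b ∈ B, w {a, b} = 2) → N (A ∪ B) = N A * N B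
  sign : ∀ T ∈ S, 3 ≤ T.card →
    (∀ A ⊆ T, A.Nonempty → A ≠ T → ∃ a ∈ A, ∃ b ∈ T, b ∉ A ∧ w {a, b} ≠ 2) →
    (Odd T.card → ∑ U ∈ T.powerset, (-1 / 2) ^ (T.card - U.card) / N U = 0) ∧
    ∀ j, T.card = 2 * j → 0 ≤ (-1) ^ j * ∑ U ∈ T.powerset, (-1 / 2) ^ (T.card - U.card) / N U

/-- The cells are products of intervals and even polygons: in each face the edges of weight greater
than `2` are pairwise disjoint, and the cell of `σ` has `2^|σ| ∏ (w e / 2)` vertices. -/
def Polygonal {n : ℕ} (S : Finset (Finset (Fin n))) (w : Finset (Fin n) → ℕ)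
    (N : Finset (Fin n) → ℚ) : Prop :=
  (∀ e, 2 ≤ w e) ∧ (∀ T ∈ S, ∀ u ∈ T, ∀ v ∈ T, ∀ z ∈ T, u ≠ v → u ≠ z → v ≠ z →
    w {u, v} = 2 ∨ w {u, z} = 2) ∧
  ∀ σ, N σ = 2 ^ σ.card * ∏ e ∈ σ.powersetCard 2, (w e : ℚ) / 2

/-- **The Singer–Hopf inequality** for manifolds of dimension `2 m` tiled by Coxeter polytopes. -/
theorem result (k : Type) [Field k] (m : ℕ) (P : Type) [Fintype P] [PartialOrder P] (dim : P → ℕ)
    (hP : ∀ c : P, ∃ v, dim v = 0 ∧ v ≤ c)
    (hL : ∀ v : P, dim v = 0 → ∃ (n : ℕ) (S : Finset (Finset (Fin n))) (w : Finset (Fin n) → ℕ)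
      (N : Finset (Fin n) → ℚ), IsFlagSphere k (2 * m) S ∧ GoodLink m S ∧
        (CoxeterOrders S w N ∨ Polygonal S w N) ∧ CellsAt dim v S N) :
    0 ≤ (-1) ^ m * euler P dim := by
  classical
  have key : ∀ v : P, ∃ q : ℚ, dim v = 0 → 0 ≤ (-1) ^ m * q ∧
      q = ∑ c ∈ Finset.univ.filter (fun c : P => v ≤ c), (-1 : ℚ) ^ dim c / numBelow dim c := by
    intro v
    refine ⟨∑ c ∈ Finset.univ.filter (fun c : P => v ≤ c), (-1 : ℚ) ^ dim c / numBelow dim c,
      fun hv => ⟨?_, rfl⟩⟩
    obtain ⟨n, S, w, N, hS, hG, hN, hc⟩ := hL v hv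
    have hN' : Y365.FS.GoodOrders S N := by
      rcases hN with h | ⟨h1, h2, h3⟩
      · exact Y365.FS.goodOrders_of (fun F hF G hG => down hS F hF G hG) w h.weight N h.empty
          h.vertex h.edge h.mul h.sign
      · have h4 := Y365.FS.goodOrders_ordM w h1 h2
        have h5 : N = Y365.FS.ordM w := funext h3
        rwa [h5]
    rw [hc.sum]
    rcases hG with h | h | h
    · exact Y365.FS.weighted hS h hN'
    · exact weighted_of_links hS (cd_links_of_cls hS h) hN'
    · exact weighted_of_links hS (fun F hF j hj =>
        (h F hF j hj).cd (link_sphere hS hF (by omega))) hN'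
  choose om hom using key
  have h2 := euler_eq dim hP om (fun v hv => (hom v hv).2)
  have h3 : (0 : ℚ) ≤ (-1) ^ m * ((euler P dim : ℤ) : ℚ) := by
    rw [h2, Finset.mul_sum]
    exact Finset.sum_nonneg fun v hv => (hom v (Finset.mem_filter.1 hv).2).1
  exact_mod_cast h3

end Pool.Agent.Results.MP_9d0d86_gt.CoxeterTiles
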