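import Pool.Agent.Q105.SH.Adm

/-!
# The Singer–Hopf inequality for cubical manifolds: vertices from which no tetrahedron is far

`IsCubical P dim`: the finite poset `P` is the poset of the cubes of a finite cubical complex.
`IsLink v S`: the simplicial complex `S` is the link of the vertex `v`.  `IsFlagSphere k d S`: `S` is a
flag homology sphere of dimension `d - 1` over the field `k`.  So, if all the links of vertices are
flag spheres of dimension `2 m - 1`, the complex is nonpositively curved (Gromov), hence aspherical,
and it is a homology manifold of dimension `2 m`.  `link S F` is the link of the face `F` of `S`.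
`IsFar S v G`: the face `G` of `S` is far from `v`, i.e. none of its vertices is `v` or joined to `v`.

`Adm m S` (`Pool.Agent.Q105.SH.Adm`): the complex `S` of dimension `2 m - 1` is admissible, by one of
the rules: (few) at most `5 m + 3` vertices; (factors) a join factor of odd rank, or all join factors,
of rank `e`, have `e ≤ 2` or at most `max (2 e + 6) (3 e)` vertices; (four) `m = 2` and
`f₁ - 5 f₀ + 16 ≥ 0`; (far) there is a vertex `v` from which no tetrahedron is far, such that the links
of all the edges far from `v` are admissible.

The proof: the Euler characteristic is the sum over the vertices of the Charney–Davis quantities of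
their links; the quantity of a flag sphere `S` is, up to a positive factor and the sign, the sum of
those of the links of the edges which are far from a vertex `v`, if no tetrahedron is far from `v`.
-/

set_option autoImplicit false

namespace Pool.Agent.Results.MP_9d0d86_gt.FarEdges

open Pool.Agent.W497.FS Pool.Agent.W497.CC Pool.Agent.Q105.SH

/-- **The Singer–Hopf inequality** for the cubical complexes of dimension `2 m` whose vertex links are
admissible flag homology spheres.  In particular, in dimension six, if every vertex link has one
vertex from which no tetrahedron is far, and the links of the edges of the vertex links satisfy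
`f₁ - 5 f₀ + 16 ≥ 0`. -/
theorem result (k : Type) [Field k] (P : Type) [Fintype P] [PartialOrder P] (dim : P → ℕ)
    (hP : IsCubical P dim) :
    (∀ m : ℕ, (∀ v : P, dim v = 0 → ∃ (n : ℕ) (S : Finset (Finset (Fin n))),
      IsLink v S ∧ IsFlagSphere k (2 * m) S ∧ Adm m S) → 0 ≤ (-1) ^ m * chi P dim) ∧
    ((∀ v : P, dim v = 0 → ∃ (n : ℕ) (S : Finset (Finset (Fin n))), IsLink v S ∧
      IsFlagSphere k 6 S ∧
      (∀ E ∈ S, E.card = 2 → 5 * numFaces (link S E) 1 ≤ numFaces (link S E) 2 + 16) ∧
      ∃ u, {u} ∈ S ∧ ∀ G, IsFar S u G → G.card ≤ 3) → chi P dim ≤ 0) := by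
  have key : ∀ m : ℕ, (∀ v : P, dim v = 0 → ∃ (n : ℕ) (S : Finset (Finset (Fin n))),
      IsLink v S ∧ IsFlagSphere k (2 * m) S ∧ Adm m S) → 0 ≤ (-1) ^ m * chi P dim := by
    intro m hL
    refine chi_nonneg m P dim hP fun v hv => ?_
    obtain ⟨n, S, h1, h2, h3⟩ := hL v hv
    exact ⟨n, S, h1, down h2, h3.cd h2⟩
  refine ⟨key, fun hL => ?_⟩
  have h := key 3 (fun v hv => by
    obtain ⟨n, S, h1, h2, h3, u, hu, hu'⟩ := hL v hv
    exact ⟨n, S, h1, h2, Adm.far u hu hu' fun E hE hc => Adm.four (h3 E hE.1 hc)⟩)
  have e : (-1 : ℤ) ^ 3 * chi P dim = - chi P dim := by ring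
  rw [e] at h
  omega

end Pool.Agent.Results.MP_9d0d86_gt.FarEdges
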