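import Pool.Agent.Q105.SH.Base

/-!
# The Singer–Hopf inequality for cubical manifolds whose links are built by gluing and subdivision

`IsCubical P dim`: the finite poset `P` is the poset of the cubes of a finite cubical complex.
`IsLink v S`: the simplicial complex `S` is the link of the vertex `v`.  `IsFlagSphere k d S`: `S` is a
flag homology sphere of dimension `d - 1` over the field `k`.  So, if all the links of vertices are
flag spheres of dimension `2 m - 1`, the complex is nonpositively curved (Gromov), hence aspherical,
and it is a homology manifold of dimension `2 m`.

`Cls d α H W` (see `Pool.Agent.TH709.GG.ClsDef`) says that the flag complex of the cliques of `H`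
inside `W` belongs to the least class that contains the flag Eulerian complexes of rank at most
three and those of rank four with `f₁ - 5 f₀ + 16 ≥ 0`, and is closed under isomorphism, links,
joins, edge subdivisions, inverse edge contractions (the edge lies in no induced 4-cycle, its ends
have links in the class), gluing two members after removing from each a vertex, along the links of
the two vertices, and under passing from the vertex links to the complex if every facet contains a
vertex which is not far from any triangle.

The proof: the Euler characteristic is the sum over the vertices of the Charney–Davis quantities of
their links, and these are the last entries of the gamma-vectors up to a factor; the gamma-vectors of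
the members of the class are nonnegative by the engine of the starting result
`MP_19e880_co.GluingAndContraction`.
-/

set_option autoImplicit false

namespace Pool.Agent.Results.MP_9d0d86_gt.GluedLinks

open Pool.Agent.W497.FS Pool.Agent.W497.CC Pool.Agent.TH709.GG

/-- The simplicial complex `S` of dimension `2 m - 1` belongs to the class. -/
def InClass (m : ℕ) {n : ℕ} (S : Finset (Finset (Fin n))) : Prop :=
  Cls (2 * m) (Fin n) (skel S) (vert S)

/-- **The Singer–Hopf inequality** for the cubical complexes of dimension `2 m` whose vertex links are
flag homology spheres in the class. -/
theorem result (k : Type) [Field k] (m : ℕ) (P : Type) [Fintype P] [PartialOrder P] (dim : P → ℕ)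
    (hP : IsCubical P dim)
    (hL : ∀ v : P, dim v = 0 → ∃ (n : ℕ) (S : Finset (Finset (Fin n))),
      IsLink v S ∧ IsFlagSphere k (2 * m) S ∧ InClass m S) :
    0 ≤ (-1) ^ m * chi P dim := by
  refine Q105.SH.chi_nonneg m P dim hP fun v hv => ?_
  obtain ⟨n, S, h1, h2, h3⟩ := hL v hv
  exact ⟨n, S, h1, Q105.SH.down h2, Q105.SH.cd_cls h2 h3⟩

end Pool.Agent.Results.MP_9d0d86_gt.GluedLinks
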