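import Pool.Agent.Q250.GL.Cube

/-!
# The Singer–Hopf inequality for nonpositively curved cubical manifolds tolerates small errors

`IsCubical P dim`: the finite poset `P` is the poset of cubes of a finite cubical complex.  `FlagLinks k m dim`: every
vertex link is a flag homology sphere of dimension `2 m - 1` over the field `k`; then the complex is nonpositively curved
(Gromov), so its components are aspherical, and it is a closed `k`-homology manifold of dimension `2 m`.
`numCubes P dim i` is the number of `i`-cubes, `deg dim v` the number of edges at the vertex `v`.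

The following are equivalent for `m ≥ 1`:

* `(-1)^m χ(P) ≥ 0` for all such `P` (the Singer–Hopf inequality for this class);
* for every `ε > 0` there is `C` with `(-1)^m χ(P) ≥ - ε E(P) - C V(P)` for all such `P`, where `E`, `V` are the numbers of
  edges and vertices;
* the Charney–Davis inequality for the flag homology `(2 m - 1)`-spheres over `k`.

Moreover it is enough that, for one `j`, `(-1)^(m+j) χ(P) ≥ - ε ∑_v deg(v)^(j+1) - C V(P)` for the complexes of dimension
`2 (m + j)`.

Proof.  `χ(P)` is the sum of the Charney–Davis quantities of the links.  Conversely, every flag homology sphere `S` is the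
link of all vertices of a finite cubical complex (the faces of a cube whose directions form a face of `S`).  And the
Charney–Davis inequality for spheres tolerates errors `o(f₀)`, or `o(f₀^(j+1))` in dimension `2 (m + j) - 1`: repeated
doubling along vertex links, and joins with polygons (hand-in `MP_19e880_co.CrossPolytopeDichotomy`).
-/

set_option autoImplicit false

namespace Pool.Agent.Results.MP_9d0d86_gt.SmallErrors

open Pool.Agent.W497.FS Pool.Agent.W497.CC Pool.Agent.Q250.GL

open scoped Classical in
theorem result (k : Type) [Field k] (m : ℕ) (hm : 1 ≤ m) :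
    [∀ (P : Type) [Fintype P] [PartialOrder P] (dim : P → ℕ), IsCubical P dim → FlagLinks k m dim →
        0 ≤ (-1) ^ m * chi P dim,
      ∀ ε : ℝ, 0 < ε → ∃ C : ℝ, ∀ (P : Type) [Fintype P] [PartialOrder P] (dim : P → ℕ), IsCubical P dim →
        FlagLinks k m dim →
        -(ε * numCubes P dim 1) - C * numCubes P dim 0 ≤ (((-1) ^ m * chi P dim : ℤ) : ℝ),
      ∀ (n : ℕ) (S : Finset (Finset (Fin n))), IsFlagSphere k (2 * m) S → 0 ≤ (-1) ^ m * omega S].TFAE ∧
    ∀ j : ℕ,
      (∀ ε : ℝ, 0 < ε → ∃ C : ℝ, ∀ (P : Type) [Fintype P] [PartialOrder P] (dim : P → ℕ), IsCubical P dim →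
        FlagLinks k (m + j) dim →
        -(ε * ((∑ v ∈ Finset.univ.filter (fun v : P => dim v = 0), deg dim v ^ (j + 1) : ℕ) : ℝ)) -
          C * numCubes P dim 0 ≤ (((-1) ^ (m + j) * chi P dim : ℤ) : ℝ)) →
      ∀ (P : Type) [Fintype P] [PartialOrder P] (dim : P → ℕ), IsCubical P dim → FlagLinks k m dim →
        0 ≤ (-1) ^ m * chi P dim := by
  refine ⟨?_, fun j h => cube_of_cd (cd_of_err hm (err_of_cube h))⟩
  tfae_have 1 → 2 := by
    intro h ε hε
    refine ⟨0, fun P _ _ dim hP hL => ?_⟩
    have h1 := h P dim hP hL
    have h2 : (0 : ℝ) ≤ (((-1) ^ m * chi P dim : ℤ) : ℝ) := by exact_mod_cast h1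
    have h3 : 0 ≤ ε * (numCubes P dim 1 : ℝ) := by positivity
    linarith
  tfae_have 2 → 3 := by
    intro h
    refine cd_of_err (j := 0) hm (err_of_cube (M := m) (e := 1) ?_)
    intro ε hε
    obtain ⟨C₀, hC₀⟩ := h ε hε
    refine ⟨C₀, fun P _ _ dim hP hL => ?_⟩
    refine le_trans ?_ (hC₀ P dim hP hL)
    have h1 := sum_deg hP
    simp only [pow_one]
    rw [h1]
    have h3 : 0 ≤ ε * (numCubes P dim 1 : ℝ) := by positivity
    push_cast
    linarith
  tfae_have 3 → 1 := fun h P _ _ dim hP hL => cube_of_cd h P dim hP hL
  tfae_finish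

end Pool.Agent.Results.MP_9d0d86_gt.SmallErrors
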